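import Pool.Agent.E8helper59.TS.Stm

/-!
# Project TS (helper59), MP_b907b5_co: piece TS7, counting by integration over the slices
-/

set_option autoImplicit false
open MeasureTheory Set Filter Topology
open scoped Pointwise ENNReal

namespace Pool.Agent.E8helper7.TS

open Pool.Agent.E8helper59.TS

open Classical in
theorem t_CNT (h1 : S_HALF) (h2 : S_FIN) (h3 : S_SLICE) : S_CNT := by
  intro m D A hA hDc hDconv hDi hCap
  have hB := h1 D hDc hDconv hDi
  obtain ⟨k0, hk0i⟩ := hDi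
  have hk0 : k0 ∈ D := interior_subset hk0i
  obtain ⟨ρ, hρ⟩ := hB.comp.isBounded.exists_norm_le
  have h0H : (0 : ℝ × ℝ) ∈ Half D := ⟨k0, hk0, k0, hk0, by simp⟩
  have hρ0 : 0 ≤ ρ := (norm_nonneg _).trans (hρ 0 h0H)
  refine ⟨2 * ‖k0‖ + 2 * ρ, by positivity, fun T hT R F hR hF => ?_⟩
  -- positions
  have hpos : ∀ t ∈ F, ∀ ζ ∈ Icc (0 : Fin m → ℝ) 1, ‖t.1 + k0‖ ≤ R ∧ ‖t.2 + ζ‖ ≤ R := by
    intro t ht ζ hζ
    have h4 : t + ((k0, ζ) : E m) ∈ Metric.closedBall (0 : E m) R :=
      (hF t ht).2 ⟨(k0, ζ), ⟨hk0, hζ⟩, rfl⟩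
    rw [mem_closedBall_zero_iff, Prod.norm_def] at h4
    exact ⟨(le_max_left _ _).trans h4, (le_max_right _ _).trans h4⟩
  have hpos1 : ∀ t ∈ F, ‖t.1‖ ≤ R + ‖k0‖ := by
    intro t ht
    have h5 := (hpos t ht 0 ⟨le_rfl, zero_le_one⟩).1
    calc ‖t.1‖ = ‖(t.1 + k0) - k0‖ := by rw [add_sub_cancel_right]
      _ ≤ ‖t.1 + k0‖ + ‖k0‖ := norm_sub_le _ _
      _ ≤ R + ‖k0‖ := by linarith
  set M : ℝ := (2 * R + (2 * ‖k0‖ + 2 * ρ)) ^ 2 + A with hM
  have hM0 : 0 ≤ M := by positivity
  let Sl : E m → Set (Fin m → ℝ) := fun t => Set.pi univ fun i => Ioo (t.2 i) (t.2 i + 1)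
  have hSl : ∀ t, MeasurableSet (Sl t) := fun t =>
    MeasurableSet.univ_pi fun i => measurableSet_Ioo
  have hvol : ∀ t, volume (Sl t) = 1 := by
    intro t
    rw [Real.volume_pi_Ioo]
    simp
  let Fz : (Fin m → ℝ) → Finset (E m) := fun z => F.filter fun t => z ∈ Sl t
  have hFz : ∀ z, ((Fz z).card : ℝ) * A ≤ M := by
    intro z
    obtain ⟨hs, hi⟩ := h3 m D T hDc hDconv ⟨k0, hk0i⟩ hT z (Fz z) (by
      intro t ht
      obtain ⟨h5, h6⟩ := Finset.mem_filter.1 ht
      exact ⟨(hF t h5).1, fun i => h6 i (mem_univ i)⟩)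
    have h7 := h2 A (Half D) hA hB hCap ρ hρ (R + ‖k0‖) ((Fz z).image Prod.fst) (by positivity) hs
      (by
        intro t ht
        obtain ⟨s, hs', rfl⟩ := Finset.mem_image.1 ht
        exact hpos1 s (Finset.mem_filter.1 hs').1)
    rw [Finset.card_image_of_injOn hi] at h7
    calc ((Fz z).card : ℝ) * A ≤ (2 * (R + ‖k0‖) + 2 * ρ) ^ 2 + A := h7
      _ = M := by rw [hM]; ring
  have hFz0 : ∀ z, z ∉ Metric.closedBall (0 : Fin m → ℝ) R → Fz z = ∅ := by
    intro z hz
    by_contra hne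
    obtain ⟨t, ht⟩ := Finset.nonempty_iff_ne_empty.2 hne
    obtain ⟨h5, h6⟩ := Finset.mem_filter.1 ht
    apply hz
    have h8 : z - t.2 ∈ Icc (0 : Fin m → ℝ) 1 := by
      constructor
      · intro i
        have := (h6 i (mem_univ i)).1
        simp only [Pi.zero_apply, Pi.sub_apply]
        linarith
      · intro i
        have := (h6 i (mem_univ i)).2
        simp only [Pi.one_apply, Pi.sub_apply]
        linarith
    have h9 := (hpos t h5 _ h8).2
    rw [add_sub_cancel] at h9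
    rw [mem_closedBall_zero_iff]
    exact h9
  -- integration
  have e1 : ((F.card : ℝ≥0∞)) = ∫⁻ z : Fin m → ℝ, ((Fz z).card : ℝ≥0∞) := by
    have e2 : ∀ z : Fin m → ℝ, ((Fz z).card : ℝ≥0∞) =
        ∑ t ∈ F, (Sl t).indicator (fun _ => (1 : ℝ≥0∞)) z := by
      intro z
      simp only [indicator_apply]
      rw [Finset.card_filter]
      push_cast
      rfl
    simp_rw [e2]
    rw [lintegral_finsetSum _ (fun t _ => measurable_const.indicator (hSl t))]
    simp only [lintegral_indicator (hSl _), lintegral_one, Measure.restrict_apply_univ, hvol]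
    simp
  have e3 : (F.card : ℝ≥0∞) * ENNReal.ofReal A ≤ ENNReal.ofReal M * ENNReal.ofReal ((2 * R) ^ m) := by
    rw [e1, ← lintegral_mul_const _ (by
      have e4 : (fun z => ((Fz z).card : ℝ≥0∞)) =
          fun z => ∑ t ∈ F, (Sl t).indicator (fun _ => (1 : ℝ≥0∞)) z := by
        funext z
        simp only [indicator_apply]
        rw [Finset.card_filter]
        push_cast
        rfl
      rw [e4]
      exact Finset.measurable_sum _ fun t _ => measurable_const.indicator (hSl t))]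
    calc ∫⁻ z : Fin m → ℝ, ((Fz z).card : ℝ≥0∞) * ENNReal.ofReal A
        ≤ ∫⁻ z : Fin m → ℝ, (Metric.closedBall (0 : Fin m → ℝ) R).indicator
            (fun _ => ENNReal.ofReal M) z := by
          refine lintegral_mono fun z => ?_
          by_cases hz : z ∈ Metric.closedBall (0 : Fin m → ℝ) R
          · rw [indicator_of_mem hz]
            rw [← ENNReal.ofReal_natCast, ← ENNReal.ofReal_mul (Nat.cast_nonneg _)]
            exact ENNReal.ofReal_le_ofReal (hFz z)
          · simp [hFz0 z hz]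
      _ = ENNReal.ofReal M * ENNReal.ofReal ((2 * R) ^ m) := by
          rw [lintegral_indicator Metric.isClosed_closedBall.measurableSet, setLIntegral_const,
            Real.volume_pi_closedBall _ hR, Fintype.card_fin]
  rw [← ENNReal.ofReal_natCast, ← ENNReal.ofReal_mul (Nat.cast_nonneg _),
    ← ENNReal.ofReal_mul hM0, ENNReal.ofReal_le_ofReal_iff (by positivity)] at e3
  linarith

end Pool.Agent.E8helper7.TS
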